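import Pool.Agent.Lib.TV.Lin

set_option autoImplicit false

namespace Pool.Agent.Results.MP_3ecc11_lc.Linear

open Pool.Agent.Lib.MP_3ecc11_lc

/-- Splaying the preorder of any binary search tree `T`, starting from any binary search tree
`T'` on the same keys, costs `O(n)`. -/
theorem result :
    ∃ c : ℕ, ∀ (α : Type) [LinearOrder α] (T T' : BT α) (S : ℕ → BT α),
      (inord T).Pairwise (· < ·) → inord T' = inord T → S 0 = T' →
      (∀ i : Fin (preord T).length, Splay ((preord T).get i) (S i) (S (i + 1))) →
      ∑ i : Fin (preord T).length, (depth (S i) ((preord T).get i) + 1)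
        ≤ c * (preord T).length := by
  obtain ⟨C, hC⟩ := Pool.Agent.Lib.TV.run_final
  exact ⟨C, fun _ _ T T' S h1 h2 h3 h4 => Pool.Agent.Lib.TV63.mainLin hC T T' S h1 h2 h3 h4⟩

end Pool.Agent.Results.MP_3ecc11_lc.Linear
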